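import Pool.Agent.Helper82.OmegaAlgProof

open Pool.Agent.Helper82.OmegaAlg

universe u

/-- Over every non-trivial commutative ring `k` the answer to the question is negative, already
for finitely generated `k`-modules: there are two `Ω'`-algebra structures `α` and `β` on one and
the same finitely generated `k`-module with the same, critical, `Ω`-reduct and the same
`Ω'`-identities which are not isomorphic. -/
theorem Pool.Agent.Results.MP_3dda3d_al.CriticalCounterexample.result
    (k : Type u) [CommRing k] [Nontrivial k] :
    ∃ (Ω' : ℕ → Type) (Ω : ∀ n, Set (Ω' n)) (A : Type u) (_ : AddCommGroup A) (_ : Module k A)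
      (α β : Ops k Ω' A),
      (∃ n, 2 ≤ n ∧ (Ω n).Nonempty) ∧ Module.Finite k A ∧
      reduct α Ω = reduct β Ω ∧ IsCritical (reduct α Ω) ∧
      identities α = identities β ∧ ¬ Isomorphic α β :=
  main k
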